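import Mathlib
import Pool.Agent.N751.LS.Core
import Pool.Agent.N751.LS.Main

/-!
# The strong Lang-Silverman alternative at the closed points in linear systems on arbitrary curves

Let `C` be a geometrically integral curve over a number field `K` and `t` a non-constant function on
`C`; let `A` be a ring of functions on `C` with poles only over `t = ∞` which is finite over `K[t]`,
`N` its rank and `e_1, …, e_N` a basis of `A` over `K[t]` which contains `1`. For `n ≥ 1` let
`V_n = ⊕ K[t]_{deg ≤ n} e_j`, a linear system of dimension `N (n + 1)` on `C`. If the divisor of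
zeros of a member `s` on `Spec A` is a single reduced closed point `x`, that is, if `(s)` is a
maximal ideal, then `x` is a point of degree `N n + O(1)` over `K`, with values in its residue field
`M`. (For `A = K[t]` these are the numbers `x` of degree at most `n` over `K`.) Let `h` be the height
for divisors of degree one, `h(x) = h(t(x)) / N`.

Let `J = F / G`, with `F` and `G` in `A`, be a function on `C`, for example the `j`-invariant of an
elliptic curve over the function field of `C`, with a pole at a closed point `𝔭` of `Spec A` of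
degree at most `2 n + 1` over `K` (`F ∉ 𝔭`, `G ∈ 𝔭`). `DegreeLe m F G` says that `J` satisfies an
equation `∑ r_i(t) J^i = 0` with `deg r_i ≤ m`, which is true if `J` has degree at most `m`.

We prove that for every `n ≥ 1` there is ONE set `E` of members of `V_n`, of density zero, such that
for all these functions `J` and all closed points `x` which are members not in `E` (and are not
among the finitely many closed points of height less than a constant depending on `J`) the following
holds for all elliptic curves `E'` of invariant `J(x)` over all number fields `L₀ ⊇ M` of degree at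
most `d`, all forms `B` over `L₀` of `E' ^ g`, all polarizations of `B` and all `P` in `B(L₀)`:
either `P` has order at most `c₂` modulo a proper abelian subvariety of degree at most `c₂` times
that of `B`, or the canonical height of `P` is at least `c₁` times the height of `B`. The constants
`c₁ > 0`, `c₂` depend on `d`, `g`, `N`, `m` (and `κ`, see below), but not on `K`, `C`, `n`, `J`, `x`.

`E' : y² = x³ + a x + b` is an elliptic curve over a number field `L₀ ⊇ M` of invariant `j` with
`a`, `b` integral of height at most `κ (1 + h(j))`.  A finite Galois extension `L` of `L₀` and a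
faithful representation `ρ` of its group by integral matrices of size `g` define an abelian variety
`B` over `L₀`, the form of `E' ^ g` with `B(L₀) = {P ∈ E'(L) ^ g | ρ(σ) σ(P) = P for all σ}`
(`FixedPt ρ P`); for `g = 1` these are `E'` and all its quadratic twists.  A symmetric positive
definite integral matrix `Q` with `ρ(σ)ᵀ Q ρ(σ) = Q` (`Polar ρ Q`) is a polarization of `B` over
`L₀`; the corresponding absolute canonical height is `chatM Q P / [L : ℚ]`.

`SubvarLe c ρ Q P` is the first alternative: the columns of the primitive integral matrix `β` of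
size `g × m`, `m < g`, span a sublattice stable under `ρ`, and so define an abelian subvariety
of `B` over `L₀` of dimension `m`, its degree for the polarization is at most `c` times that of `B`,
and `n P` is in it for some positive `n ≤ c`.  `Pts L a b` is the group of points over `L`, `sht P`
the height of the `x`-coordinate, `chat P` the canonical height (`ChatLim`: the limit of
`4⁻ⁿ sht (2ⁿ P)`), `RamPrimes L₀ T` says that for each prime `v` in `T` there is `σ ≠ 1` in the
inertia group, `logNorms T` is the sum of `log N v`, `v ∈ T`, and `absH` is the absolute logarithmic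
height.

Proof. The truncated counting function of `𝔭` at `x` is at least `(deg 𝔭 - ε) h(x)` by the theorem of
helper753 (`MP_651af7_nt.LinearSystemsAllCurves`), so `J(x)` has poles at many primes; the
alternative follows from the theorem of the starting library under a Szpiro type hypothesis
(`MP_f5471b_nt.StrongFormsSzpiroRatio`).
-/

set_option autoImplicit false

namespace Pool.Agent.Results.MP_f5471b_nt.ClosedPointsAllCurves

open Polynomial IsDedekindDomain NumberField Module
open scoped LinearAlgebra.Projectivization TensorProduct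
open Pool.Agent.TH910.LS Pool.Agent.Y725.LS

/-- The function `t` on the curve with the ring of functions `A`. -/
noncomputable def coord (K A : Type) [Field K] [CommRing A] [Algebra K[X] A] : A :=
  algebraMap K[X] A X

/-- The member of the linear system `V_n` with the coordinates `c`: the sum of the
`c_i • t ^ k e_j`, where `i` is the index of the pair `(j, k)`, `k ≤ n`. -/
noncomputable def member {K A : Type} [Field K] [CommRing A] [Algebra K A] [Algebra K[X] A]
    {N : ℕ} (e : Fin N → A) (n : ℕ) (c : Fin (N * (n + 1)) → K) : A :=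
  ∑ i, c i • ((X : K[X]) ^ ((finProdFinEquiv.symm i).2 : ℕ) • e (finProdFinEquiv.symm i).1)

/-- The divisor of zeros of the member `P` is the closed point `x` with the residue field `M`. -/
def IsZero {K A : Type} [Field K] [CommRing A] [Algebra K A] [Algebra K[X] A]
    {N : ℕ} (e : Fin N → A) (n : ℕ) (P : ℙ K (Fin (N * (n + 1)) → K)) {M : Type} [Field M]
    [Algebra K M] (x : A →ₐ[K] M) : Prop :=
  Function.Surjective x ∧ RingHom.ker x = Ideal.span {member e n P.rep}

/-- The points of projective space of absolute height at most `log B`. -/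
def box (K : Type) [Field K] [NumberField K] (m : ℕ) (B : ℝ) : Set (ℙ K (Fin m → K)) :=
  {P | Height.logHeight P.rep / finrank ℚ K ≤ Real.log B}

/-- The absolute height for the divisors of degree one on the curve with the ring of functions `A`
at a point `x` with `t(x) = a`: the height for the divisor of the poles of `t`, divided by its
degree `N = [A : K[t]]`. -/
noncomputable def height (K A : Type) [Field K] [CommRing A] [Algebra K[X] A]
    {M : Type} [Field M] [NumberField M] (a : M) : ℝ :=
  Height.logHeight₁ a / finrank ℚ M / finrank K[X] A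

/-- The function `J = F / G` satisfies an equation `∑ r_i(t) J ^ i = 0` with polynomials `r_i` of
degree at most `m`. -/
def DegreeLe (K : Type) {A : Type} [Field K] [CommRing A] [Algebra K[X] A] (m : ℕ) (F G : A) :
    Prop :=
  ∃ (k : ℕ) (r : ℕ → K[X]), (∀ i, (r i).natDegree ≤ m) ∧ r k ≠ 0 ∧
    ∑ i ∈ Finset.range (k + 1), algebraMap K[X] A (r i) * F ^ i * G ^ (k - i) = 0

/-- the alternative, with the constants `c₁` and `c₂`, for all forms of dimension `g` of the powers
of the curve `y² = x³ + a x + b` over `L₀` that are split by `L` -/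
def Alternative (c₁ : ℝ) (c₂ g : ℕ) {L₀ : Type} [Field L₀] [NumberField L₀] (a b : 𝓞 L₀)
    (L : Type) [Field L] [NumberField L] [Algebra L₀ L] [DecidableEq L] : Prop :=
  ∀ (ρ : (L ≃ₐ[L₀] L) →* Matrix (Fin g) (Fin g) ℤ) (Q : Matrix (Fin g) (Fin g) ℤ)
    (P : Fin g → Pts L a b) (T : Finset (HeightOneSpectrum (𝓞 L))),
    Faithful ρ → Polar ρ Q → FixedPt ρ P → RamPrimes L₀ T →
      SubvarLe c₂ ρ Q P ∨
      (¬ IsOfFinAddOrder P ∧
        c₁ * (1 + absH (jinv (a : L₀) b) + logNorms T / Module.finrank ℚ L) ≤
          chatM Q P / Module.finrank ℚ L)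

/-- The alternative, with constants `c₁` and `c₂`, holds for all elliptic curves of invariant
`j ∈ M` over all number fields `L₀ ⊇ M` of degree at most `d`, given by an integral equation
`y² = x³ + a x + b` whose coefficients have height at most `κ (1 + h(j))`, and for all forms of
dimension `g` of their powers. -/
def HoldsAt (c₁ : ℝ) (c₂ d g : ℕ) (κ : ℝ) {M : Type} [Field M] [NumberField M] (j : M) : Prop :=
  ∀ (L₀ : Type) [Field L₀] [NumberField L₀] [Algebra M L₀], Module.finrank ℚ L₀ ≤ d →
    ∀ a b : 𝓞 L₀, 4 * (a : L₀) ^ 3 + 27 * (b : L₀) ^ 2 ≠ 0 →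
      absH (a : L₀) + absH (b : L₀) ≤ κ * (1 + absH (jinv (a : L₀) b)) →
      jinv (a : L₀) b = algebraMap M L₀ j →
      ∀ (L : Type) [Field L] [NumberField L] [Algebra L₀ L] [IsGalois L₀ L] [DecidableEq L],
        ChatLim L a b ∧ Alternative c₁ c₂ g a b L

/-- **Theorem.** (1) There are constants `c₁(d, g, N, m, κ) > 0` and `c₂(d, g, N, m, κ)` such that for
every number field `K`,
every curve with a ring of functions `A` of rank `N` over `K[t]` as above and all `n ≥ 1` there is
ONE set `E` of members of the linear system `V_n`, of density zero, such that for all functions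
`J = F / G` with a pole at a closed point of degree at most `2 n + 1`, and all closed points `x`
which are members not in `E`, not poles of `J`, and of height at least a constant depending on `J`,
the alternative holds at `J(x)`. (2) Every `j ≠ 0, 1728` in a number field of
degree at most `d` is the invariant of a curve with small coefficients, as assumed in `HoldsAt`,
with a `κ` depending only on `d`. -/
theorem result :
    (∃ (c₁ : ℕ → ℕ → ℕ → ℕ → ℝ → ℝ) (c₂ : ℕ → ℕ → ℕ → ℕ → ℝ → ℕ),
      (∀ d g N m κ, 0 < c₁ d g N m κ) ∧
      ∀ (K A : Type) [Field K] [NumberField K] [CommRing A] [IsDomain A] [Algebra K A]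
        [Algebra K[X] A] [IsScalarTower K K[X] A] [Module.Finite K[X] A] [FaithfulSMul K[X] A],
        IsDomain (AlgebraicClosure K ⊗[K] A) →
      ∀ (N : ℕ) (e : Basis (Fin N) K[X] A), (∃ i, e i = 1) → ∀ n : ℕ, 1 ≤ n →
      ∃ E : Set (ℙ K (Fin (N * (n + 1)) → K)),
        (∃ c₀ : ℝ, ∀ B : ℝ, 1 ≤ B → (E ∩ box K (N * (n + 1)) B).Finite ∧
          ((E ∩ box K (N * (n + 1)) B).ncard : ℝ) ≤
            c₀ * B ^ ((finrank ℚ K : ℝ) * (N * (n + 1) : ℕ)) * Real.exp (-√(Real.log B))) ∧
        ∀ (m : ℕ) (F G : A) (𝔭 : Ideal A), DegreeLe K m F G → 𝔭.IsMaximal →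
          finrank K (A ⧸ 𝔭) ≤ 2 * n + 1 → F ∉ 𝔭 → G ∈ 𝔭 → ∃ H : ℝ,
          ∀ (M : Type) [Field M] [NumberField M] [Algebra K M] (x : A →ₐ[K] M)
            (P : ℙ K (Fin (N * (n + 1)) → K)), P ∉ E → IsZero e n P x →
            H ≤ height K A (x (coord K A)) → x G ≠ 0 →
            ∀ (d g : ℕ) (κ : ℝ), 0 < g → 0 ≤ κ →
              HoldsAt (c₁ d g N m κ) (c₂ d g N m κ) d g κ (x F / x G)) ∧
    (∀ d : ℕ, ∃ κ : ℝ, 0 ≤ κ ∧ ∀ (K : Type) [Field K] [NumberField K],
      Module.finrank ℚ K ≤ d → ∀ j : K, j ≠ 0 → j ≠ 1728 → ∃ a b : 𝓞 K,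
        4 * (a : K) ^ 3 + 27 * (b : K) ^ 2 ≠ 0 ∧ jinv (a : K) b = j ∧
        absH (a : K) + absH (b : K) ≤ κ * (1 + absH j)) := by
  classical
  refine ⟨?_, Pool.Agent.Y728.AK.exists_model⟩
  have key : ∀ (d g N m : ℕ) (κ : ℝ), ∃ (c₁ : ℝ) (c₂ : ℕ), 0 < c₁ ∧ (0 < g → 0 ≤ κ →
      ∀ (M : Type) [Field M] [NumberField M] (j : M) (W : Finset (HeightOneSpectrum (𝓞 M))),
        (∀ w ∈ W, 1 < w.valuation M j) →
        Height.logHeight₁ j ≤ (4 * (m * N + 1) : ℝ) *
          ∑ w ∈ W, Real.log (Ideal.absNorm w.asIdeal) →
        Pool.Agent.N751.LS.StrongAt c₁ c₂ d g κ j) := by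
    intro d g N m κ
    by_cases h : 0 < g ∧ 0 ≤ κ
    · obtain ⟨c₁, hc, c₂, h1⟩ := Pool.Agent.N751.LS.strong_of_poles d g h.1 κ
        (4 * (m * N + 1)) h.2 (by positivity)
      exact ⟨c₁, c₂, hc, fun _ _ => h1⟩
    · exact ⟨1, 1, one_pos, fun h1 h2 => absurd ⟨h1, h2⟩ h⟩
  choose c₁ c₂ hc hkey using key
  refine ⟨c₁, c₂, hc, ?_⟩
  intro K A _ _ _ _ _ _ _ _ _ hA N e he n hn
  obtain ⟨E, hE, h1⟩ := Pool.Agent.N751.LS.many_poles K A hA N e he n hn
  refine ⟨E, hE, ?_⟩
  intro m F G 𝔭 hdeg hmax hfr hF hG
  obtain ⟨H, h2⟩ := h1 m F G 𝔭 hdeg hmax hfr hF hG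
  refine ⟨H, ?_⟩
  intro M _ _ _ x P hP hz hH hxG d g κ hg hκ
  obtain ⟨W, hW, h3⟩ := h2 M x P hP hz hH hxG
  exact hkey d g N m κ hg hκ M (x F / x G) W hW h3

end Pool.Agent.Results.MP_f5471b_nt.ClosedPointsAllCurves
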