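import Mathlib
import Pool.Agent.N365.LS.G

/-!
# The strong Lang-Silverman alternative for all but `O(B ^ ε)` members of every one-parameter family
# of elliptic curves over `ℚ`, for all forms of the powers of all their twists

Let `J = A / D` be a non-constant rational function over `ℚ` of degree `N`, for example the
`j`-invariant of an elliptic curve over `ℚ(T)`; its poles may have any degree. Among the about
`B ^ 2` rational arguments `(s : t)` of height at most `B` all but `O(B ^ ε)` (all but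
`O(B ^ (1 + ε))` if `J` has one pole only on the projective line), and among the integral arguments
`|t| ≤ B` all but `O(B ^ ε)`, have the following property: for all elliptic curves `E` of invariant
`J (s : t)`, `J (t)` over all number fields `K` of degree at most `d`, for all forms `A` over `K` of
`E ^ g`, all polarizations of `A` and all `P` in `A(K)`, either `P` has order at most `c₂` modulo a
proper abelian subvariety of degree at most `c₂` times that of `A`, or the canonical height of `P` is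
at least `c₁` times the height of `A`. The constants `c₁ > 0`, `c₂` depend only on the degree `N` of
`J` and on `d`, `g`, `ε` (and `κ`, see below), not on `J`. In particular torsion is bounded.

`E : y² = x³ + a x + b` is an elliptic curve of invariant `j` with `a`, `b` integral of height at
most `κ (1 + h(j))`.  A finite Galois extension `L` of `K` and a faithful representation `ρ` of its
group by integral matrices of size `g` define an abelian variety `A` over `K`, the form of `E ^ g`
with `A(K) = {P ∈ E(L) ^ g | ρ(σ) σ(P) = P for all σ}` (`FixedPt ρ P`); for `g = 1` these are `E`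
and all its quadratic twists.  A symmetric positive definite integral matrix `M` with
`ρ(σ)ᵀ M ρ(σ) = M` (`Polar ρ M`) is a polarization of `A` over `K`; the corresponding absolute
canonical height is `chatM M P / [L : ℚ]`.

`SubvarLe c ρ M P` is the first alternative: the columns of the primitive integral matrix `β` of
size `g × m`, `m < g`, span a sublattice stable under `ρ`, and so define an abelian subvariety
`B` over `K` of dimension `m`, its degree for the polarization is at most `c` times that of `A`, and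
`n P` is in `B` for some positive `n ≤ c`.  `Pts L a b` is the group of points over `L`, `sht P` the
height of the `x`-coordinate, `chat P` the canonical height (`ChatLim`: the limit of
`4⁻ⁿ sht (2ⁿ P)`), `RamPrimes K T` says that for each prime `v` in `T` there is `σ ≠ 1` in the
inertia group, `logNorms T` is the sum of `log N v`, `v ∈ T`, and `absH` is the absolute logarithmic
height.
-/

set_option autoImplicit false

namespace Pool.Agent.Results.MP_f5471b_nt.EveryOneParameterFamily

open Pool.Agent.TH910.LS Pool.Agent.Y725.LS NumberField IsDedekindDomain Polynomial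

/-- the alternative, with the constants `c₁` and `c₂`, for all forms of dimension `g` of the powers
of the curve `y² = x³ + a x + b` over `K` that are split by `L` -/
def Alternative (c₁ : ℝ) (c₂ g : ℕ) {K : Type} [Field K] [NumberField K] (a b : 𝓞 K) (L : Type)
    [Field L] [NumberField L] [Algebra K L] [DecidableEq L] : Prop :=
  ∀ (ρ : (L ≃ₐ[K] L) →* Matrix (Fin g) (Fin g) ℤ) (M : Matrix (Fin g) (Fin g) ℤ)
    (P : Fin g → Pts L a b) (T : Finset (HeightOneSpectrum (𝓞 L))),
    Faithful ρ → Polar ρ M → FixedPt ρ P → RamPrimes K T →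
      SubvarLe c₂ ρ M P ∨
      (¬ IsOfFinAddOrder P ∧
        c₁ * (1 + absH (jinv (a : K) b) + logNorms T / Module.finrank ℚ L) ≤
          chatM M P / Module.finrank ℚ L)

/-- the alternative, with constants `c₁` and `c₂`, holds for all elliptic curves of invariant `j` over
all number fields of degree at most `d`, given by an integral equation `y² = x³ + a x + b` whose
coefficients have height at most `κ (1 + h(j))`, and for all forms of dimension `g` of their
powers -/
def HoldsAt (c₁ : ℝ) (c₂ d g : ℕ) (κ : ℝ) (j : ℚ) : Prop :=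
  ∀ (K : Type) [Field K] [NumberField K], Module.finrank ℚ K ≤ d →
    ∀ a b : 𝓞 K, 4 * (a : K) ^ 3 + 27 * (b : K) ^ 2 ≠ 0 →
      absH (a : K) + absH (b : K) ≤ κ * (1 + absH (jinv (a : K) b)) → jinv (a : K) b = (j : K) →
      ∀ (L : Type) [Field L] [NumberField L] [Algebra K L] [IsGalois K L] [DecidableEq L],
        ChatLim L a b ∧ Alternative c₁ c₂ g a b L

/-- `A / D` is a rational function of degree `N ≥ 1` in lowest terms -/
structure IsFunction (N : ℕ) (A D : ℤ[X]) : Prop where
  pos : 1 ≤ N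
  deg_num : A.natDegree ≤ N
  deg_den : D.natDegree ≤ N
  deg : A.natDegree = N ∨ D.natDegree = N
  coprime : IsCoprime (A.map (Int.castRingHom ℚ)) (D.map (Int.castRingHom ℚ))

/-- the number of the different poles on the projective line over `ℂ` of the function `A / D` of
degree `N`: the roots of `D`, and infinity if `deg D < N` -/
noncomputable def poleCount (N : ℕ) (D : ℤ[X]) : ℕ :=
  (D.map (Int.castRingHom ℂ)).roots.toFinset.card + if D.natDegree < N then 1 else 0

/-- the value at `(s, t)` of the binary form `∑ fᵢ Xⁱ Y^(N - i)` of degree `N` of the polynomial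
`f = ∑ fᵢ Xⁱ`; it is `t ^ N * f (s / t)` when `t ≠ 0` and `deg f ≤ N` -/
noncomputable def formValue (N : ℕ) (f : ℤ[X]) (s t : ℤ) : ℤ :=
  ∑ i ∈ Finset.range (N + 1), f.coeff i * s ^ i * t ^ (N - i)

/-- the rational arguments `(s : t)` of height at most `B`: the coprime pairs with `|s|, |t| ≤ B`
(each argument is given by two pairs `±(s, t)`) -/
def Pairs (B : ℕ) : Set (ℤ × ℤ) := {P | IsCoprime P.1 P.2 ∧ |P.1| ≤ B ∧ |P.2| ≤ B}

/-- `(s : t)` is not a pole of `A / D` and the alternative holds at `J (s : t) = (A / D) (s : t)` -/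
def HoldsRat (c₁ : ℝ) (c₂ d g : ℕ) (κ : ℝ) (N : ℕ) (A D : ℤ[X]) (P : ℤ × ℤ) : Prop :=
  formValue N D P.1 P.2 ≠ 0 ∧
    HoldsAt c₁ c₂ d g κ ((formValue N A P.1 P.2 : ℤ) / (formValue N D P.1 P.2 : ℤ))

/-- `t` is not a pole of `A / D` and the alternative holds at `J (t) = A (t) / D (t)` -/
def HoldsInt (c₁ : ℝ) (c₂ d g : ℕ) (κ : ℝ) (A D : ℤ[X]) (t : ℤ) : Prop :=
  D.eval t ≠ 0 ∧ HoldsAt c₁ c₂ d g κ ((A.eval t : ℤ) / (D.eval t : ℤ))

/-- **Theorem.** (1) For all `N`, `d`, `g`, `κ` and `ε > 0` there are constants `c₁ > 0` and `c₂`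
such that for every rational function `J = A / D` of degree `N` over `ℚ` the alternative with these
constants holds for all elliptic curves of invariant `J (s : t)`, `J (t)` over number fields of
degree at most `d` and all forms of their `g`-th powers, for all rational arguments `(s : t)` of
height at most `B` with at most `C B ^ (1 + ε)` exceptions, with at most `C B ^ ε` exceptions if `J`
has at least two poles, and for all integral arguments `|t| ≤ B` with at most `C B ^ ε` exceptions;
`C` depends on `J` and `ε`, not on `B`. (2) Every `j ≠ 0, 1728` is the invariant of a curve with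
small coefficients, as assumed in `HoldsAt`, with a `κ` depending only on `d`. -/
theorem result :
    (∀ (N d g : ℕ) (κ ε : ℝ), 0 < g → 0 ≤ κ → 0 < ε → ∃ (c₁ : ℝ) (c₂ : ℕ), 0 < c₁ ∧
      ∀ A D : ℤ[X], IsFunction N A D →
        (∃ C : ℝ, ∀ B : ℕ, 1 ≤ B →
          ({P | P ∈ Pairs B ∧ ¬ HoldsRat c₁ c₂ d g κ N A D P}.ncard : ℝ) ≤
            C * (B : ℝ) ^ (1 + ε)) ∧
        (2 ≤ poleCount N D → ∃ C : ℝ, ∀ B : ℕ, 1 ≤ B →
          ({P | P ∈ Pairs B ∧ ¬ HoldsRat c₁ c₂ d g κ N A D P}.ncard : ℝ) ≤ C * (B : ℝ) ^ ε) ∧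
        ∃ C : ℝ, ∀ B : ℕ, 1 ≤ B →
          ({t : ℤ | |t| ≤ (B : ℤ) ∧ ¬ HoldsInt c₁ c₂ d g κ A D t}.ncard : ℝ) ≤ C * (B : ℝ) ^ ε) ∧
    (∀ d : ℕ, ∃ κ : ℝ, 0 ≤ κ ∧ ∀ (K : Type) [Field K] [NumberField K],
      Module.finrank ℚ K ≤ d → ∀ j : K, j ≠ 0 → j ≠ 1728 → ∃ a b : 𝓞 K,
        4 * (a : K) ^ 3 + 27 * (b : K) ^ 2 ≠ 0 ∧ jinv (a : K) b = j ∧
        absH (a : K) + absH (b : K) ≤ κ * (1 + absH j)) := by
  refine ⟨fun N d g κ ε hg hκ hε => ?_, Pool.Agent.Y728.AK.exists_model⟩
  obtain ⟨a₁, ha₁, a₂, h1⟩ :=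
    Pool.Agent.N365.LS.strong_enough d g hg κ (16 * (N + 1) / ε) hκ (by positivity)
  obtain ⟨b₁, hb₁, b₂, h2⟩ := Pool.Agent.N365.LS.strong_poly d g hg κ hκ
  have hP1 : ∀ x y : ℤ, Pool.Agent.N365.LS.Enough (16 * (N + 1) / ε) x y →
      HoldsAt (min a₁ b₁) (max a₂ b₂) d g κ (x / y) := fun x y h =>
    (h1 x y h).mono (min_le_left _ _) (le_max_left _ _)
  have hP2 : ∀ y : ℤ, y ≠ 0 → ∃ X0 : ℝ, 0 ≤ X0 ∧ ∀ x : ℤ, X0 < |(x : ℝ)| →
      HoldsAt (min a₁ b₁) (max a₂ b₂) d g κ (x / y) := by
    intro y hy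
    obtain ⟨X0, hX0, h⟩ := h2 y hy
    exact ⟨X0, hX0, fun x hx => (h x hx).mono (min_le_right _ _) (le_max_right _ _)⟩
  refine ⟨min a₁ b₁, max a₂ b₂, lt_min ha₁ hb₁, fun A D hR => ?_⟩
  have hR' : Pool.Agent.N365.LS.Rat N A D :=
    ⟨hR.pos, hR.deg_num, hR.deg_den, hR.deg, hR.coprime⟩
  have hpole : poleCount N D = Pool.Agent.N365.LS.poleCount N D := rfl
  have hset : ∀ B : ℕ,
      {P | P ∈ Pairs B ∧ ¬ HoldsRat (min a₁ b₁) (max a₂ b₂) d g κ N A D P} =
      {P : ℤ × ℤ | P ∈ Pool.Agent.N365.SZ.Box B ∧ ¬ (Pool.Agent.Y670.RD.fv N D P.1 P.2 ≠ 0 ∧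
        HoldsAt (min a₁ b₁) (max a₂ b₂) d g κ
          (Pool.Agent.Y670.RD.fv N A P.1 P.2 / Pool.Agent.Y670.RD.fv N D P.1 P.2))} := by
    intro B
    ext P
    rw [Set.mem_ofPred_eq, Set.mem_ofPred_eq, Pool.Agent.N365.SZ.mem_Box]
    exact ⟨fun h => ⟨⟨h.1.2, h.1.1⟩, h.2⟩, fun h => ⟨⟨h.1.2, h.1.1⟩, h.2⟩⟩
  obtain ⟨C, hC, hc⟩ := Pool.Agent.N365.LS.few_of hP1 hR' ε hε rfl
  refine ⟨⟨C, fun B hB => ?_⟩, fun h2p => ⟨C, fun B hB => ?_⟩, ?_⟩
  · rw [hset B]
    refine (hc B hB).trans (mul_le_mul_of_nonneg_left ?_ hC.le)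
    refine Real.rpow_le_rpow_of_exponent_le (by exact_mod_cast hB) ?_
    split_ifs <;> linarith
  · rw [hset B]
    have h3 := hc B hB
    rwa [if_pos (hpole ▸ h2p)] at h3
  · obtain ⟨C', hC', hc'⟩ := Pool.Agent.N365.LS.few_of_int hP1 hP2 hR' ε hε rfl
    exact ⟨C', fun B hB => hc' B hB⟩

end Pool.Agent.Results.MP_f5471b_nt.EveryOneParameterFamily
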