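import Mathlib
import Pool.Agent.N141.TS.Thin
import Pool.Agent.N365.LS.G

/-!
# The strong Lang-Silverman alternative along thin sequences of elliptic curves in families with
# several parameters, for all forms of the powers of all their twists

Let `J = A / D` be a rational function over `ℚ` in `r` variables, for example the `j`-invariant of an
elliptic curve over `ℚ(t₁, …, t_r)`, whose reductions modulo the primes have many poles in the mean
(`MeanPoles`); this is so for the universal family `y² = x³ + t₁ x + t₂`. Let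
`P_i(n) = ∑ a_x n ^ x` be sums of real powers with real coefficients whose largest exponents are
positive, distinct and not integers and have positive coefficients, for example `n ^ √2`,
`π n ^ 0.3`. For every `ε > 0` there are constants `c₁ > 0` and `c₂` such that for all but `ε N` of
the integers `n` in `(N, 2 N]`, `N` large, and for all but the proportion `ε` of the primes `n` in
`(N, 2 N]`, the following holds at `j = J (⌊P₁(n)⌋, …, ⌊P_r(n)⌋)`: for all elliptic curves `E` of
invariant `j` over all number fields `K` of degree at most `d`, for all forms `A` over `K` of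
`E ^ g`, all polarizations of `A` and all `P` in `A(K)`, either `P` has order at most `c₂` modulo a
proper abelian subvariety of degree at most `c₂` times that of `A`, or the canonical height of `P` is
at least `c₁` times the height of `A`. In particular torsion is bounded.

`E : y² = x³ + a x + b` is an elliptic curve of invariant `j` with `a`, `b` integral of height at
most `κ (1 + h(j))`.  A finite Galois extension `L` of `K` and a faithful representation `ρ` of its
group by integral matrices of size `g` define an abelian variety `A` over `K`, the form of `E ^ g`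
with `A(K) = {P ∈ E(L) ^ g | ρ(σ) σ(P) = P for all σ}` (`FixedPt ρ P`); for `g = 1` these are `E`
and all its quadratic twists.  A symmetric positive definite integral matrix `M` with
`ρ(σ)ᵀ M ρ(σ) = M` (`Polar ρ M`) is a polarization of `A` over `K`; the corresponding absolute
canonical height is `chatM M P / [L : ℚ]`.

`SubvarLe c ρ M P` is the first alternative: the columns of the primitive integral matrix `β` of
size `g × m`, `m < g`, span a sublattice stable under `ρ`, and so define an abelian subvariety
`B` over `K` of dimension `m`, its degree for the polarization is at most `c` times that of `A`, and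
`n P` is in `B` for some positive `n ≤ c`.  `Pts L a b` is the group of points over `L`, `sht P` the
height of the `x`-coordinate, `chat P` the canonical height (`ChatLim`: the limit of
`4⁻ⁿ sht (2ⁿ P)`), `RamPrimes K T` says that for each prime `v` in `T` there is `σ ≠ 1` in the
inertia group, `logNorms T` is the sum of `log N v`, `v ∈ T`, and `absH` is the absolute logarithmic
height.

Proof. The integer vectors `⌊P_i(n)⌋` are jointly equidistributed modulo all `q ≤ N ^ δ`, over the
integers and over the primes (exponential sums, `Pool.Agent.N666`). By Turan's sieve with the primes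
`p` in `(N ^ (τ δ), N ^ δ]`, `τ` small, all but the proportion `ε` of the `n` have such a prime
dividing `D` and not `A`; by the Schwartz-Zippel lemma `D ≠ 0` for almost all `n`. This prime is in
the denominator of `j`, whose height is `O(log N)`, and this is enough for the alternative
(`Pool.Agent.N365.LS.strong_enough`).
-/

set_option autoImplicit false

namespace Pool.Agent.Results.MP_f5471b_nt.ThinSequences

open Pool.Agent.TH910.LS Pool.Agent.Y725.LS NumberField IsDedekindDomain MvPolynomial

/-- the alternative, with the constants `c₁` and `c₂`, for all forms of dimension `g` of the powers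
of the curve `y² = x³ + a x + b` over `K` that are split by `L` -/
def Alternative (c₁ : ℝ) (c₂ g : ℕ) {K : Type} [Field K] [NumberField K] (a b : 𝓞 K) (L : Type)
    [Field L] [NumberField L] [Algebra K L] [DecidableEq L] : Prop :=
  ∀ (ρ : (L ≃ₐ[K] L) →* Matrix (Fin g) (Fin g) ℤ) (M : Matrix (Fin g) (Fin g) ℤ)
    (P : Fin g → Pts L a b) (T : Finset (HeightOneSpectrum (𝓞 L))),
    Faithful ρ → Polar ρ M → FixedPt ρ P → RamPrimes K T →
      SubvarLe c₂ ρ M P ∨
      (¬ IsOfFinAddOrder P ∧
        c₁ * (1 + absH (jinv (a : K) b) + logNorms T / Module.finrank ℚ L) ≤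
          chatM M P / Module.finrank ℚ L)

/-- the alternative, with constants `c₁` and `c₂`, holds for all elliptic curves of invariant `j` over
all number fields of degree at most `d`, given by an integral equation `y² = x³ + a x + b` whose
coefficients have height at most `κ (1 + h(j))`, and for all forms of dimension `g` of their
powers -/
def HoldsAt (c₁ : ℝ) (c₂ d g : ℕ) (κ : ℝ) (j : ℚ) : Prop :=
  ∀ (K : Type) [Field K] [NumberField K], Module.finrank ℚ K ≤ d →
    ∀ a b : 𝓞 K, 4 * (a : K) ^ 3 + 27 * (b : K) ^ 2 ≠ 0 →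
      absH (a : K) + absH (b : K) ≤ κ * (1 + absH (jinv (a : K) b)) → jinv (a : K) b = (j : K) →
      ∀ (L : Type) [Field L] [NumberField L] [Algebra K L] [IsGalois K L] [DecidableEq L],
        ChatLim L a b ∧ Alternative c₁ c₂ g a b L

/-- the sum over the primes `y < p ≤ x` of the proportion of the vectors modulo `p` that are zeros of
`D` but not of `A` is at least `δ (log log x - log log y) - C` -/
def MeanPoles {r : ℕ} (A D : MvPolynomial (Fin r) ℤ) : Prop :=
  ∃ δ C : ℝ, 0 < δ ∧ ∀ y x : ℕ, 3 ≤ y → y ≤ x →
    δ * (Real.log (Real.log x) - Real.log (Real.log y)) - C ≤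
      ∑ p ∈ (Finset.Ioc y x).filter Nat.Prime,
        ({ρ : Fin r → ZMod p | aeval ρ D = 0 ∧ aeval ρ A ≠ 0}.ncard : ℝ) / (p : ℝ) ^ r

/-- `c` is the largest exponent of the generalised polynomial `∑ a_x n ^ x`; it is positive and not
an integer and has a positive coefficient. -/
def Admissible (F : Finset ℝ) (a : ℝ → ℝ) (c : ℝ) : Prop :=
  c ∈ F ∧ (∀ x ∈ F, x ≤ c) ∧ 0 < c ∧ (∀ m : ℕ, c ≠ m) ∧ 0 < a c

/-- the integer parts of the values at `n` of the generalised polynomials -/
noncomputable def value {r : ℕ} (F : Fin r → Finset ℝ) (a : Fin r → ℝ → ℝ) (n : ℕ) : Fin r → ℤ :=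
  fun i => ⌊∑ x ∈ F i, a i x * (n : ℝ) ^ x⌋

/-- `v` is not a pole of `A / D` and the alternative holds at `(A / D) (v)` -/
def Holds (c₁ : ℝ) (c₂ d g : ℕ) (κ : ℝ) {r : ℕ} (A D : MvPolynomial (Fin r) ℤ) (v : Fin r → ℤ) :
    Prop :=
  eval v D ≠ 0 ∧ HoldsAt c₁ c₂ d g κ ((eval v A : ℤ) / (eval v D : ℤ))

/-- **Theorem.** (1) The strong Lang-Silverman alternative, with constants `c₁ > 0` and `c₂`
depending on `ε`, holds for all elliptic curves of invariant `J (⌊P₁(n)⌋, …, ⌊P_r(n)⌋)` over number
fields of degree at most `d` and all forms of their `g`-th powers, for all but `ε N` of the integers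
`n` in `(N, 2 N]` and for all but the proportion `ε` of the primes in `(N, 2 N]`, `N ≥ N₀`. (2) The
invariant `6912 t₁³ / (4 t₁³ + 27 t₂²)` of the universal family `y² = x³ + t₁ x + t₂` has many poles
in the mean. (3) Every `j ≠ 0, 1728` is the invariant of a curve with small coefficients, as assumed
in `HoldsAt`, with a `κ` depending only on `d`. -/
theorem result :
    (∀ (r : ℕ) (A D : MvPolynomial (Fin r) ℤ), 0 < r → D ≠ 0 → MeanPoles A D →
      ∀ (F : Fin r → Finset ℝ) (a : Fin r → ℝ → ℝ) (c : Fin r → ℝ),
        (∀ i, Admissible (F i) (a i) (c i)) → Function.Injective c →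
      ∀ (d g : ℕ) (κ ε : ℝ), 0 < g → 0 ≤ κ → 0 < ε → ∃ (c₁ : ℝ) (c₂ N₀ : ℕ), 0 < c₁ ∧
        ∀ N : ℕ, N₀ ≤ N →
          ({n : ℕ | n ∈ Finset.Ioc N (2 * N) ∧
              ¬ Holds c₁ c₂ d g κ A D (value F a n)}.ncard : ℝ) ≤ ε * N ∧
          ({n : ℕ | n ∈ (Finset.Ioc N (2 * N)).filter Nat.Prime ∧
              ¬ Holds c₁ c₂ d g κ A D (value F a n)}.ncard : ℝ) ≤
            ε * ((Finset.Ioc N (2 * N)).filter Nat.Prime).card) ∧
    MeanPoles (C 6912 * X 0 ^ 3 : MvPolynomial (Fin 2) ℤ) (C 4 * X 0 ^ 3 + C 27 * X 1 ^ 2) ∧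
    (∀ d : ℕ, ∃ κ : ℝ, 0 ≤ κ ∧ ∀ (K : Type) [Field K] [NumberField K],
      Module.finrank ℚ K ≤ d → ∀ j : K, j ≠ 0 → j ≠ 1728 → ∃ a b : 𝓞 K,
        4 * (a : K) ^ 3 + 27 * (b : K) ^ 2 ≠ 0 ∧ jinv (a : K) b = j ∧
        absH (a : K) + absH (b : K) ≤ κ * (1 + absH j)) := by
  refine ⟨fun r A D hr hD hM F a c h hc d g κ ε hg hκ hε => ?_, Pool.Agent.N141.TS.mean_wei,
    Pool.Agent.Y728.AK.exists_model⟩
  obtain ⟨σ, hσ, N₀, hN₀⟩ := Pool.Agent.N141.TS.thin hr hD hM ⟨h, hc⟩ ε hε
  obtain ⟨c₁, hc₁, c₂, h1⟩ := Pool.Agent.N365.LS.strong_enough d g hg κ σ hκ hσ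
  have key : ∀ v : Fin r → ℤ, Pool.Agent.N141.TS.Big σ (eval v A) (eval v D) →
      Holds c₁ c₂ d g κ A D v := by
    rintro v ⟨h2, p, hp, h3, h4, H, h5, h6, h7, h8⟩
    refine ⟨h2, h1 _ _ ⟨h2, {p}, ?_, H, h5, h6, h7, ?_, ?_⟩⟩
    · intro q hq
      rw [Finset.mem_singleton] at hq
      subst hq
      exact ⟨hp, h3, h4⟩
    · intro h0
      exact h4 (h0 ▸ dvd_zero _)
    · rw [Finset.prod_singleton]
      exact h8
  refine ⟨c₁, c₂, N₀, hc₁, fun N hN => ?_⟩
  obtain ⟨k1, k2⟩ := hN₀ N hN
  rw [Nat.card_Ioc, show 2 * N - N = N by omega] at k1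
  exact ⟨(Pool.Agent.N141.TS.ncard_mono fun n _ hn hb => hn (key _ hb)).trans k1,
    (Pool.Agent.N141.TS.ncard_mono fun n _ hn hb => hn (key _ hb)).trans k2⟩

end Pool.Agent.Results.MP_f5471b_nt.ThinSequences
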